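import Pool.Agent.H49.FOS.Defs

/-!
# CST: definitions for the main theorem
-/

set_option autoImplicit false

namespace Pool.CST

open Pool.FOS

/-- The number of monomials of degree `D` in `n` variables. -/
def mon (n D : ℕ) : ℕ := (D + (n - 1)).choose (n - 1)

/-- The conjectured value: the least `s` with `mon n (k * d) ≤ s * mon n d`. -/
def cv (n k d : ℕ) : ℕ := (mon n (k * d) + (mon n d - 1)) / mon n d

/-- The generic `k`-rank of forms of degree `k * d` in `n` variables is `r`. -/
def Rk (n k d r : ℕ) : Prop := GenLe n k d r ∧ ∀ t < r, ¬ GenLe n k d t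

end Pool.CST
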