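import Pool.Agent.H21.CST.S1
import Pool.Agent.H2.TRN.LOW

/-!
# CST: the dimension count
-/

set_option autoImplicit false

namespace Pool.CST

open MvPolynomial Pool.FOS Pool.TRN

/-- The number of monomials of degree `D` in `p + 1` variables. -/
theorem card_deg (p D : ℕ) :
    Nat.card {m : Fin (p + 1) →₀ ℕ // m.degree = D} = (D + p).choose p := by
  have e : {m : Fin (p + 1) →₀ ℕ // m.degree = D} ≃ Sym (Fin (p + 1)) D :=
    (Equiv.subtypeEquivRight (fun m => by
      rw [Finsupp.degree_eq_sum, Finsupp.sum_fintype _ _ (fun _ => rfl)]; rfl)).trans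
      (Sym.equivNatSum (Fin (p + 1)) D).symm
  rw [Nat.card_congr e, Nat.card_eq_fintype_card, Sym.card_sym_eq_choose, Fintype.card_fin]
  have h2 : p + 1 + D - 1 = D + p := by omega
  rw [h2]
  have h3 := Nat.choose_symm (n := D + p) (k := p) (by omega)
  have h4 : D + p - p = D := by omega
  rw [h4] at h3
  exact h3

/-- The lower bound. -/
theorem low_all (p k d s : ℕ) (h : s * (d + p).choose p < (k * d + p).choose p) :
    ¬ GenLe (p + 1) k d s := by
  refine t_low (p + 1) k d s ?_
  rw [card_deg, card_deg]
  exact h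

end Pool.CST
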