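import Pool.Agent.H21.CST.S1

/-!
# CST: the process
-/

set_option autoImplicit false

namespace Pool.CST

open MvPolynomial Pool.FOS

namespace AMOx

theorem mem_Sx {δ E : ℕ} (a : Fin δ → ℕ) : a ∈ Sx δ E ↔ ∑ i, a i < E := by
  unfold Sx
  rw [Finset.mem_filter, Fintype.mem_piFinset]
  refine ⟨fun h => h.2, fun h => ⟨fun i => ?_, h⟩⟩
  rw [Finset.mem_range]
  exact lt_of_le_of_lt (Finset.single_le_sum (fun _ _ => Nat.zero_le _) (Finset.mem_univ i)) h

theorem sum_lt_of_mem {δ E : ℕ} {a : Fin δ → ℕ} (h : a ∈ Sx δ E) : ∑ i, a i < E :=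
  (Finset.mem_filter.1 h).2

theorem card_Sx_le (δ m : ℕ) : (Sx δ m).card ≤ m ^ δ := by
  refine (Finset.card_filter_le _ _).trans ?_
  rw [Fintype.card_piFinset]
  simp

theorem st_sub (δ m : ℕ) (Z : Finset (Fin (δ + 1) → ℕ)) : st δ m Z ⊆ Z := by
  classical
  intro a ha
  unfold st at ha
  exact Finset.mem_of_mem_filter a ha

theorem it_anti (δ m : ℕ) (Z : Finset (Fin (δ + 1) → ℕ)) (s t : ℕ) (h : s ≤ t) :
    (st δ m)^[t] Z ⊆ (st δ m)^[s] Z := by
  induction t, h using Nat.le_induction with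
  | base => exact Finset.Subset.refl _
  | succ t _ ih =>
    rw [Function.iterate_succ_apply']
    exact (st_sub _ _ _).trans ih

theorem clo_Sx (δ E : ℕ) : Clo δ (Sx (δ + 1) E) := by
  intro a ha b _ _ hs
  rw [mem_Sx] at ha ⊢
  exact lt_of_le_of_lt hs ha

theorem it_clo (hCLO : CLOStmt) (δ m E t : ℕ) : Clo δ ((st δ m)^[t] (Sx (δ + 1) E)) := by
  induction t with
  | zero => exact clo_Sx δ E
  | succ t ih =>
    rw [Function.iterate_succ_apply']
    exact hCLO δ m _ ih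

theorem vol_le (hVOL : VOLStmt) (δ m : ℕ) (Z : Finset (Fin (δ + 1) → ℕ)) (s t : ℕ) (h : s ≤ t) :
    ((st δ m)^[s] Z \ (st δ m)^[t] Z).card ≤ (t - s) * (Sx (δ + 1) m).card := by
  classical
  induction t, h using Nat.le_induction with
  | base => simp
  | succ t hst ih =>
    have h1 : (st δ m)^[s] Z \ (st δ m)^[t + 1] Z ⊆
        ((st δ m)^[s] Z \ (st δ m)^[t] Z) ∪
          ((st δ m)^[t] Z \ st δ m ((st δ m)^[t] Z)) := by
      intro a ha
      rw [Function.iterate_succ_apply'] at ha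
      rw [Finset.mem_union, Finset.mem_sdiff, Finset.mem_sdiff]
      rw [Finset.mem_sdiff] at ha
      by_cases hb : a ∈ (st δ m)^[t] Z
      · exact Or.inr ⟨hb, ha.2⟩
      · exact Or.inl ⟨ha.1, hb⟩
    have h2 := (Finset.card_le_card h1).trans (Finset.card_union_le _ _)
    have h3 := (hVOL δ m ((st δ m)^[t] Z)).1
    have h4 : t + 1 - s = (t - s) + 1 := by omega
    rw [h4, Nat.add_mul, Nat.one_mul]
    omega

theorem vol_eq (hVOL : VOLStmt) (hFUL : FULStmt) (hCLO : CLOStmt) (δ m E t : ℕ)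
    (h : ∀ s < t, ∃ a ∈ (st δ m)^[s] (Sx (δ + 1) E), m ≤ a (Fin.last δ) + 1) :
    t * (Sx (δ + 1) m).card + ((st δ m)^[t] (Sx (δ + 1) E)).card = (Sx (δ + 1) E).card := by
  classical
  induction t with
  | zero => simp
  | succ t ih =>
    have h1 := ih fun s hs => h s (by omega)
    obtain ⟨a, ha, hal⟩ := h t (by omega)
    have h2 := (hVOL δ m ((st δ m)^[t] (Sx (δ + 1) E))).2 fun q hq hz =>
      hFUL δ m _ a (it_clo hCLO δ m E t) ha hal q hq fun b hb _ => hz b hb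
    rw [Function.iterate_succ_apply']
    have h3 := Finset.card_sdiff_add_card_eq_card (st_sub δ m ((st δ m)^[t] (Sx (δ + 1) E)))
    rw [Nat.add_mul, Nat.one_mul]
    omega

theorem touch (hCLO : CLOStmt) (hTCH : TCHStmt) (δ m E t : ℕ) (hδ : 1 ≤ δ) (a : Fin (δ + 1) → ℕ)
    (ha : a ∈ (st δ m)^[t] (Sx (δ + 1) E)) (hal : m ≤ a (Fin.last δ) + 1)
    (u : Fin (δ + 1) → ℕ) (hu : u ∈ Sx (δ + 1) E) (hau : a 0 + m ≤ u 0) (s : ℕ) (hs : s ≤ t + 1) :
    u ∈ (st δ m)^[s] (Sx (δ + 1) E) := by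
  induction s with
  | zero => exact hu
  | succ s ih =>
    rw [Function.iterate_succ_apply']
    exact hTCH δ m _ a u hδ (it_clo hCLO δ m E s) (it_anti δ m _ s t (by omega) ha) hal
      (ih (by omega)) hau

/-- The good times. -/
def Good (δ m E t c : ℕ) : Prop :=
  (∀ a ∈ (st (δ + 1) m)^[t] (Sx (δ + 2) E), c ≤ a 0) ∧
    ∃ a ∈ (st (δ + 1) m)^[t] (Sx (δ + 2) E), a 0 < c + (m / 2 + 1) ∧
      m ≤ a (Fin.last (δ + 1)) + 1

theorem step (hCLO : CLOStmt) (hVOL : VOLStmt) (hWIN : WINStmt) (hTCH : TCHStmt)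
    (hBXC : BXCStmt) (hNQ : NQStmt) (δ m E t c : ℕ) (hm : 1 ≤ m) (hg : Good δ m E t c)
    (hc : c + CC δ * m ≤ E) : ∃ t' > t, ∃ c', Good δ m E t' c' := by
  classical
  obtain ⟨hg1, a, ha, ha0, hal⟩ := hg
  obtain ⟨b, k, hb, hk, hsum, hnum⟩ := hNQ δ m (E - c) hm (by omega)
  by_contra hno
  push Not at hno
  set S := Sx (δ + 2) E with hS
  set X := XX δ k 2 with hX
  -- the heights
  have hht : ∀ i, ∀ u ∈ (st (δ + 1) m)^[t + 1 + i * X] S, c + i * (m / 2 + 1) ≤ u 0 := by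
    intro i
    induction i with
    | zero =>
      intro u hu
      have h1 := hg1 u (it_anti (δ + 1) m S t (t + 1 + 0 * X) (by omega) hu)
      omega
    | succ i ih =>
      intro u hu
      have e1 : t + 1 + (i + 1) * X = X + (t + 1 + i * X) := by ring
      rw [e1, Function.iterate_add_apply] at hu
      have h2 := hWIN δ m k 2 (c + i * (m / 2 + 1)) 0 _ ih ?_ u hu
      · have e2 : (i + 1) * (m / 2 + 1) = i * (m / 2 + 1) + (m / 2 + 1) := by ring
        omega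
      · intro v hv hv0
        have hvS : v ∈ S := it_anti (δ + 1) m S 0 _ (Nat.zero_le _) hv
        have h3 := sum_lt_of_mem hvS
        have h4 := hg1 v (it_anti (δ + 1) m S t _ (by omega) hv)
        rw [Fin.sum_univ_succ] at h3
        have h5 : ∀ j : Fin (δ + 1), Fin.tail v j ≤ ∑ i : Fin (δ + 1), v i.succ := fun j =>
          Finset.single_le_sum (f := fun i : Fin (δ + 1) => v i.succ)
            (fun _ _ => Nat.zero_le _) (Finset.mem_univ j)
        refine ⟨fun j => Nat.zero_le _, fun j => ?_, ?_⟩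
        · have := h5 j.castSucc
          simp only [Pi.zero_apply]
          omega
        · have h6 : ¬ m ≤ v (Fin.last (δ + 1)) + 1 := by
            intro h7
            exact hno (t + 1 + i * X) (by omega) (c + i * (m / 2 + 1)) ⟨ih, v, hv, hv0, h7⟩
          show v (Fin.last (δ + 1)) < 0 + 2 * ((m + 1) / 2)
          omega
  -- the volume
  have hsub : (S.filter fun u => c + (m / 2 + 1) + m ≤ u 0 ∧ u 0 < c + 5 * (m / 2 + 1) ∧
      m ≤ u (Fin.last (δ + 1)) + 1) ⊆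
      (st (δ + 1) m)^[t + 1] S \ (st (δ + 1) m)^[t + 1 + 4 * X] S := by
    intro u hu
    rw [Finset.mem_filter] at hu
    obtain ⟨huS, hu1, hu2, hu3⟩ := hu
    rw [Finset.mem_sdiff]
    refine ⟨?_, fun hu4 => ?_⟩
    · exact touch hCLO hTCH (δ + 1) m E t (by omega) a ha hal u huS (by omega) (t + 1) (le_refl _)
    · exact hno (t + 1 + 4 * X) (by omega) (c + 4 * (m / 2 + 1))
        ⟨hht 4, u, hu4, by omega, hu3⟩
  have h1 := Finset.card_le_card hsub
  have h2 := vol_le hVOL (δ + 1) m S (t + 1) (t + 1 + 4 * X) (by omega)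
  have h3 := hBXC δ E m b (c + (m / 2 + 1) + m) (c + 5 * (m / 2 + 1)) hb (by omega)
  have e1 : t + 1 + 4 * X - (t + 1) = 4 * X := by omega
  rw [e1] at h2
  have h4 : 4 * X * (Sx (δ + 1 + 1) m).card ≤ 4 * X * m ^ (δ + 2) :=
    Nat.mul_le_mul_left _ (card_Sx_le _ _)
  have h5 : 2 * (m / 2 + 1) * b ^ (δ + 1) ≤
      (c + 5 * (m / 2 + 1) - (c + (m / 2 + 1) + m)) * b ^ (δ + 1) :=
    Nat.mul_le_mul_right _ (by omega)
  have h6 : 2 * (m / 2 + 1) * b ^ (δ + 1) ≤ 4 * X * m ^ (δ + 2) :=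
    h5.trans (h3.trans (h1.trans (h2.trans h4)))
  omega

theorem amo (hCLO : CLOStmt) (hVOL : VOLStmt) (hKIL : KILStmt) (hWIN : WINStmt)
    (hFUL : FULStmt) (hTCH : TCHStmt) (hBXC : BXCStmt) (hNQ : NQStmt) : AMOStmt := by
  classical
  intro δ m E hm hmE
  set S := Sx (δ + 2) E with hS
  have hcap : 1 ≤ (Sx (δ + 2) m).card := by
    rw [Nat.succ_le_iff, Finset.card_pos]
    refine ⟨0, ?_⟩
    rw [mem_Sx]
    simp
    omega
  -- the first time without long rows
  have hex : ∃ T, ∀ a ∈ (st (δ + 1) m)^[T] S, ¬ m ≤ a (Fin.last (δ + 1)) + 1 := by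
    by_contra hno
    push Not at hno
    have h1 := vol_eq hVOL hFUL hCLO (δ + 1) m E (S.card + 1) fun s _ => hno s
    have h2 : (S.card + 1) * 1 ≤ (S.card + 1) * (Sx (δ + 1 + 1) m).card :=
      Nat.mul_le_mul_left _ hcap
    have h3 : (Sx (δ + 1 + 1) E).card = S.card := rfl
    omega
  obtain ⟨T, hT, hTmin⟩ : ∃ T, (∀ a ∈ (st (δ + 1) m)^[T] S, ¬ m ≤ a (Fin.last (δ + 1)) + 1) ∧
      ∀ s < T, ∃ a ∈ (st (δ + 1) m)^[s] S, m ≤ a (Fin.last (δ + 1)) + 1 := by
    refine ⟨Nat.find hex, Nat.find_spec hex, fun s hs => ?_⟩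
    have := Nat.find_min hex hs
    push Not at this
    exact this
  have hvol := vol_eq hVOL hFUL hCLO (δ + 1) m E T hTmin
  refine ⟨T, Nat.le.intro hvol, ?_⟩
  have hlt : ∀ t c, Good δ m E t c → t < T := by
    intro t c hg
    obtain ⟨_, a, ha, _, hal⟩ := hg
    by_contra hle
    exact hT a (it_anti (δ + 1) m S T t (by omega) ha) hal
  have hg0 : Good δ m E 0 0 := by
    refine ⟨fun a _ => Nat.zero_le _, Pi.single (Fin.last (δ + 1)) (E - 1), ?_, ?_, ?_⟩
    · show _ ∈ Sx (δ + 2) E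
      rw [mem_Sx, Finset.sum_pi_single']
      simp
      omega
    · have : (0 : Fin (δ + 2)) ≠ Fin.last (δ + 1) := (Fin.last_pos).ne
      rw [Pi.single_eq_of_ne this]
      omega
    · rw [Pi.single_eq_same]
      omega
  obtain ⟨t, c, hg, hc⟩ : ∃ t c, Good δ m E t c ∧ E < c + CC δ * m := by
    by_contra hno
    push Not at hno
    have h1 : ∀ n, ∃ t, n ≤ t ∧ ∃ c, Good δ m E t c := by
      intro n
      induction n with
      | zero => exact ⟨0, le_refl _, 0, hg0⟩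
      | succ n ih =>
        obtain ⟨t, hnt, c, hg⟩ := ih
        obtain ⟨t', ht', c', hg'⟩ := step hCLO hVOL hWIN hTCH hBXC hNQ δ m E t c hm hg (hno t c hg)
        exact ⟨t', by omega, c', hg'⟩
    obtain ⟨t, hTt, c, hg⟩ := h1 T
    exact absurd (hlt t c hg) (by omega)
  have htT := hlt t c hg
  have e0 : T + XX (δ + 1) (CC δ) 1 = XX (δ + 1) (CC δ) 1 + T := Nat.add_comm _ _
  rw [e0, Function.iterate_add_apply]
  refine hKIL (δ + 1) m (CC δ) 1 (Fin.cons c 0) _ fun a ha => ?_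
  have haS : a ∈ S := it_anti (δ + 1) m S 0 T (Nat.zero_le _) ha
  have h3 := sum_lt_of_mem haS
  have h4 := hg.1 a (it_anti (δ + 1) m S t T (by omega) ha)
  rw [Fin.sum_univ_succ] at h3
  have h5 : ∀ j : Fin (δ + 1), a j.succ ≤ ∑ i : Fin (δ + 1), a i.succ := fun j =>
    Finset.single_le_sum (f := fun i : Fin (δ + 1) => a i.succ)
      (fun _ _ => Nat.zero_le _) (Finset.mem_univ j)
  refine ⟨fun j => ?_, fun j => ?_, ?_⟩
  · refine Fin.cases ?_ (fun j => ?_) j
    · rw [Fin.cons_zero]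
      exact h4
    · rw [Fin.cons_succ]
      exact Nat.zero_le _
  · refine Fin.cases ?_ (fun j => ?_) j
    · rw [Fin.castSucc_zero, Fin.cons_zero]
      omega
    · rw [← Fin.succ_castSucc, Fin.cons_succ]
      have := h5 j.castSucc
      simp only [Pi.zero_apply]
      omega
  · have h6 := hT a ha
    show a (Fin.last (δ + 1)) < (Fin.cons c 0 : Fin (δ + 1 + 1) → ℕ) (Fin.last δ).succ + 1 * m
    rw [Fin.cons_succ]
    simp only [Pi.zero_apply]
    omega

end AMOx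

theorem t_amo (hCLO : CLOStmt) (hVOL : VOLStmt) (hKIL : KILStmt) (hWIN : WINStmt)
    (hFUL : FULStmt) (hTCH : TCHStmt) (hBXC : BXCStmt) (hNQ : NQStmt) : AMOStmt :=
  AMOx.amo hCLO hVOL hKIL hWIN hFUL hTCH hBXC hNQ

end Pool.CST
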