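import Pool.Agent.H21.CST.S1

/-!
# CST: the size of the constant
-/

set_option autoImplicit false

namespace Pool.CST

theorem XX_le (δ : ℕ) : ∀ k l : ℕ, XX δ k l ≤ 2 ^ (δ * (δ + 3)) * k ^ δ * l := by
  induction δ with
  | zero => intro k l; simp [XX]
  | succ δ ih =>
    intro k l
    have h1 := ih (2 * k) (2 * l)
    show 2 * k * XX δ (2 * k) (2 * l) ≤ _
    have h2 : 2 * k * (2 ^ (δ * (δ + 3)) * (2 * k) ^ δ * (2 * l)) =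
        2 ^ (δ * (δ + 3) + δ + 2) * (k ^ (δ + 1) * l) := by
      rw [mul_pow, pow_add, pow_add]
      ring
    have h3 : δ * (δ + 3) + δ + 2 ≤ (δ + 1) * (δ + 1 + 3) := by nlinarith
    calc 2 * k * XX δ (2 * k) (2 * l)
        ≤ 2 * k * (2 ^ (δ * (δ + 3)) * (2 * k) ^ δ * (2 * l)) := Nat.mul_le_mul_left _ h1
      _ = 2 ^ (δ * (δ + 3) + δ + 2) * (k ^ (δ + 1) * l) := h2
      _ ≤ 2 ^ ((δ + 1) * (δ + 1 + 3)) * (k ^ (δ + 1) * l) :=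
          Nat.mul_le_mul_right _ (Nat.pow_le_pow_right (by norm_num) h3)
      _ = _ := by ring

theorem lt_two_pow' (δ : ℕ) : 4 * (δ + 8) ≤ 2 ^ (δ + 5) := by
  induction δ with
  | zero => norm_num
  | succ δ ih =>
    have : 2 ^ (δ + 1 + 5) = 2 * 2 ^ (δ + 5) := by ring
    omega

theorem CC_le (δ : ℕ) : CC δ ≤ 2 ^ (2 * δ ^ 2 + 9 * δ + 4) := by
  have h1 := XX_le δ (4 * (δ + 8)) 2
  have h2 : (4 * (δ + 8)) ^ δ ≤ (2 ^ (δ + 5)) ^ δ := Nat.pow_le_pow_left (lt_two_pow' δ) δ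
  have h3 : δ + 1 ≤ 2 ^ δ := Nat.lt_two_pow_self
  have h4 : (δ + 1) * (4 * XX δ (4 * (δ + 8)) 2) ≤ 2 ^ (2 * δ ^ 2 + 9 * δ + 3) := by
    calc (δ + 1) * (4 * XX δ (4 * (δ + 8)) 2)
        ≤ 2 ^ δ * (4 * (2 ^ (δ * (δ + 3)) * (2 ^ (δ + 5)) ^ δ * 2)) := by
          refine Nat.mul_le_mul h3 (Nat.mul_le_mul_left _ (h1.trans ?_))
          exact Nat.mul_le_mul_right _ (Nat.mul_le_mul_left _ h2)
      _ = 2 ^ (δ + 2 + δ * (δ + 3) + (δ + 5) * δ + 1) := by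
          rw [← pow_mul, pow_add, pow_add, pow_add, pow_add]
          ring
      _ = 2 ^ (2 * δ ^ 2 + 9 * δ + 3) := by
          congr 1
          ring
  have h5 : 2 ^ (2 * δ ^ 2 + 9 * δ + 4) = 2 * 2 ^ (2 * δ ^ 2 + 9 * δ + 3) := by ring
  have h6 : 2 ^ 3 ≤ 2 ^ (2 * δ ^ 2 + 9 * δ + 3) := Nat.pow_le_pow_right (by norm_num) (by omega)
  unfold CC
  omega

theorem con_le (δ : ℕ) : XX (δ + 1) (CC δ) 1 ≤ 4 ^ ((δ + 3) ^ 3) := by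
  have h1 := XX_le (δ + 1) (CC δ) 1
  have h2 : CC δ ^ (δ + 1) ≤ (2 ^ (2 * δ ^ 2 + 9 * δ + 4)) ^ (δ + 1) :=
    Nat.pow_le_pow_left (CC_le δ) _
  calc XX (δ + 1) (CC δ) 1 ≤ 2 ^ ((δ + 1) * (δ + 1 + 3)) * CC δ ^ (δ + 1) * 1 := h1
    _ ≤ 2 ^ ((δ + 1) * (δ + 1 + 3)) * (2 ^ (2 * δ ^ 2 + 9 * δ + 4)) ^ (δ + 1) * 1 :=
        Nat.mul_le_mul_right _ (Nat.mul_le_mul_left _ h2)
    _ = 2 ^ ((δ + 1) * (δ + 1 + 3) + (2 * δ ^ 2 + 9 * δ + 4) * (δ + 1)) := by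
        rw [← pow_mul, mul_one, ← pow_add]
    _ ≤ 2 ^ (2 * (δ + 3) ^ 3) := by
        refine Nat.pow_le_pow_right (by norm_num) ?_
        nlinarith [Nat.zero_le δ, Nat.zero_le (δ ^ 2), Nat.zero_le (δ ^ 3)]
    _ = 4 ^ ((δ + 3) ^ 3) := by
        rw [pow_mul]
        norm_num

end Pool.CST
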