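import Pool.Agent.H21.CST.S1

/-!
# CST: monotonicity and slices
-/

set_option autoImplicit false

namespace Pool.CST

open MvPolynomial Pool.FOS

namespace LAYx

theorem mem_st {δ m : ℕ} {Z : Finset (Fin (δ + 1) → ℕ)} {u : Fin (δ + 1) → ℕ} :
    u ∈ st δ m Z ↔ u ∈ Z ∧ ∀ q : MvPolynomial (Fin (δ + 1)) ℂ, q.totalDegree < m →
      (∀ a ∈ Z, Bef δ a u → ev a q = 0) → ev u q = 0 := by
  classical
  unfold st
  rw [Finset.mem_filter]

theorem mno : MNOStmt := by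
  intro δ m m' Z Z' hZ hm u hu
  rw [mem_st] at hu ⊢
  exact ⟨hZ hu.1, fun q hq h => hu.2 q (lt_of_lt_of_le hq hm) fun a ha hb => h a (hZ ha) hb⟩

theorem mem_sl {δ z : ℕ} {Z : Finset (Fin (δ + 2) → ℕ)} {a : Fin (δ + 1) → ℕ} :
    a ∈ sl δ z Z ↔ ∃ b ∈ Z, b 0 = z ∧ Fin.tail b = a := by
  unfold sl
  rw [Finset.mem_image]
  constructor
  · rintro ⟨b, hb, rfl⟩
    rw [Finset.mem_filter] at hb
    exact ⟨b, hb.1, hb.2, rfl⟩
  · rintro ⟨b, hb, h0, rfl⟩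
    exact ⟨b, Finset.mem_filter.2 ⟨hb, h0⟩, rfl⟩

theorem ev_mul {δ : ℕ} (a : Fin δ → ℕ) (p q : MvPolynomial (Fin δ) ℂ) :
    ev a (p * q) = ev a p * ev a q := by
  unfold ev
  rw [map_mul]

theorem ev_rename {δ : ℕ} (a : Fin (δ + 1) → ℕ) (q : MvPolynomial (Fin δ) ℂ) :
    ev a (rename Fin.succ q) = ev (Fin.tail a) q := by
  unfold ev
  rw [eval_rename]
  rfl

theorem ev_prod {δ : ℕ} (a : Fin (δ + 1) → ℕ) (s : Finset ℕ) :
    ev a (∏ c ∈ s, (X 0 - C (c : ℂ))) = ∏ c ∈ s, ((a 0 : ℂ) - c) := by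
  unfold ev
  rw [map_prod]
  refine Finset.prod_congr rfl fun c _ => ?_
  simp

theorem deg_prod {δ : ℕ} (s : Finset ℕ) :
    (∏ c ∈ s, (X 0 - C (c : ℂ)) : MvPolynomial (Fin (δ + 1)) ℂ).totalDegree ≤ s.card := by
  refine (totalDegree_finsetProd _ _).trans ?_
  have h : ∀ c ∈ s, (X 0 - C (c : ℂ) : MvPolynomial (Fin (δ + 1)) ℂ).totalDegree ≤ 1 := by
    intro c _
    refine (totalDegree_sub _ _).trans ?_
    rw [totalDegree_X, totalDegree_C]
    exact le_of_eq (max_eq_left (Nat.zero_le _))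
  refine (Finset.sum_le_sum h).trans ?_
  simp

theorem lay : LAYStmt := by
  intro δ m c z Z hc u' hu'
  rw [mem_sl] at hu'
  obtain ⟨u, hu, hu0, rfl⟩ := hu'
  rw [mem_st] at hu ⊢
  refine ⟨mem_sl.2 ⟨u, hu.1, hu0, rfl⟩, fun q' hq' hv => ?_⟩
  have h1 := hu.2 (rename Fin.succ q' * ∏ c' ∈ Finset.Ico c z, (X 0 - C (c' : ℂ))) ?_ ?_
  · rw [ev_mul, ev_rename, ev_prod] at h1
    rcases mul_eq_zero.1 h1 with h2 | h2
    · exact h2
    · exfalso
      rw [Finset.prod_eq_zero_iff] at h2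
      obtain ⟨c', hc', h3⟩ := h2
      rw [Finset.mem_Ico] at hc'
      rw [sub_eq_zero, hu0] at h3
      have : z = c' := by exact_mod_cast h3
      omega
  · refine lt_of_le_of_lt (totalDegree_mul _ _) ?_
    have h2 := totalDegree_rename_le Fin.succ q'
    have h3 := deg_prod (δ := δ + 1) (Finset.Ico c z)
    rw [Nat.card_Ico] at h3
    omega
  · intro a ha hb
    rw [ev_mul, ev_rename, ev_prod]
    rcases hb with hb | ⟨hb0, hb⟩
    · have h2 : a 0 ∈ Finset.Ico c z := by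
        rw [Finset.mem_Ico]
        exact ⟨hc a ha, hu0 ▸ hb⟩
      rw [Finset.prod_eq_zero h2 (sub_self _), mul_zero]
    · rw [hv (Fin.tail a) (mem_sl.2 ⟨a, ha, hb0.trans hu0, rfl⟩) hb, zero_mul]

end LAYx

theorem t_mno : MNOStmt := LAYx.mno

theorem t_lay : LAYStmt := LAYx.lay

end Pool.CST
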