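import Pool.Agent.H21.CST.AMO
import Pool.Agent.H21.CST.CNS
import Pool.Agent.H21.CST.Def
import Pool.Agent.H21.CST.LAY
import Pool.Agent.H21.CST.LOW
import Pool.Agent.H27.CST.UNI
import Pool.Agent.H36.CST.CLO
import Pool.Agent.H36.CST.DIF
import Pool.Agent.H43.CST.KIL
import Pool.Agent.H67.CST.FUL
import Pool.Agent.H84.CST.BXC
import Pool.Agent.H84.CST.NQ
import Pool.Agent.H89.CST.CST
import Pool.Agent.H91.CST.VNT
import Pool.Agent.H27.FOS.DU1
import Pool.Agent.H27.FOS.DU2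
import Pool.Agent.H49.FOS.TER
import Pool.Agent.H55.TRN.ONG
import Pool.Agent.H61.FOS.JAC
import Pool.Agent.H62.FOS.DOM
import Pool.Agent.H79.TRN.MON

/-!
# CST: assembly
-/

set_option autoImplicit false

namespace Pool.CST

open Pool.FOS

theorem cst_of (h_red : REDStmt) (h_vol : VOLStmt) : CSTStmt :=
  t_cst (t_amo (t_clo t_dif) h_vol (t_kil t_mno t_lay) (t_win t_mno t_lay) (t_ful t_uni)
    (t_tch t_uni) t_bxc t_nq) t_crd h_red t_vnt (Pool.TRN.t_ong Pool.FOS.t_du1 Pool.FOS.t_du2)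
    (Pool.FOS.t_ter Pool.FOS.t_jac Pool.FOS.t_dom) Pool.TRN.t_mon

theorem mon_pos (n D : ℕ) : 1 ≤ mon n D := by
  unfold mon
  exact Nat.choose_pos (by omega)

/-- The conjectured value is large enough. -/
theorem cv_ok (n k d : ℕ) : mon n (k * d) ≤ cv n k d * mon n d := by
  have h1 := mon_pos n d
  have h2 := Nat.div_add_mod (mon n (k * d) + (mon n d - 1)) (mon n d)
  have h3 := Nat.mod_lt (mon n (k * d) + (mon n d - 1)) h1
  unfold cv
  rw [Nat.mul_comm (_ / _) _]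
  omega

/-- It is the least such number. -/
theorem cv_min (n k d s : ℕ) (h : s < cv n k d) : s * mon n d < mon n (k * d) := by
  have h1 := mon_pos n d
  unfold cv at h
  have h2 : (s + 1) * mon n d ≤ mon n (k * d) + (mon n d - 1) :=
    (Nat.le_div_iff_mul_le h1).1 h
  rw [Nat.add_mul, Nat.one_mul] at h2
  omega

theorem main_of (h_red : REDStmt) (h_vol : VOLStmt) (n k d : ℕ) (hn : 3 ≤ n) (hk : 1 ≤ k)
    (hd : 1 ≤ d) : ∃ r, Rk n k d r ∧ cv n k d ≤ r ∧ r ≤ cv n k d + 4 ^ n ^ 3 := by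
  obtain ⟨δ, rfl⟩ : ∃ δ, n = δ + 3 := ⟨n - 3, by omega⟩
  have h1 := cst_of h_red h_vol δ k d (cv (δ + 3) k d) hk hd (cv_ok (δ + 3) k d)
  have hex : ∃ r, GenLe (δ + 3) k d r := ⟨_, h1⟩
  classical
  refine ⟨Nat.find hex, ⟨Nat.find_spec hex, fun t ht => Nat.find_min hex ht⟩, ?_, ?_⟩
  · by_contra hlt
    push Not at hlt
    exact low_all (δ + 2) k d _ (cv_min (δ + 3) k d _ hlt) (Nat.find_spec hex)
  · exact (Nat.find_min' hex h1).trans (Nat.add_le_add_left (con_le δ) _)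

end Pool.CST
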