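import Pool.Agent.H21.CST.All
import Pool.Agent.H3.CST.RED
import Pool.Agent.H79.CST.VOL

/-!
# CST: the main theorem
-/

set_option autoImplicit false

namespace Pool.CST

open Pool.FOS

theorem cst_all : CSTStmt := cst_of t_red t_vol

/-- The generic `k`-rank of forms of degree `k * d` in `n` variables is the conjectured value up to
a constant which depends only on `n`. -/
theorem cst_main (n k d : ℕ) (hn : 3 ≤ n) (hk : 1 ≤ k) (hd : 1 ≤ d) :
    ∃ r, Rk n k d r ∧ cv n k d ≤ r ∧ r ≤ cv n k d + 4 ^ n ^ 3 :=
  main_of t_red t_vol n k d hn hk hd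

end Pool.CST
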