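import Pool.Agent.H49.TRN.S1

/-!
# CST: the generic `k`-rank is the dimension count up to a constant that depends only on `n`
(statements)

Exponents are vectors `a : Fin (δ + 1) → ℕ`; `a 0` is the height (the number of the slice) and
`a (Fin.last δ)` is the last coordinate `x`.
-/

set_option autoImplicit false

namespace Pool.CST

open MvPolynomial Pool.FOS

/-- The value of a polynomial at an exponent. -/
noncomputable def ev {δ : ℕ} (a : Fin δ → ℕ) (q : MvPolynomial (Fin δ) ℂ) : ℂ :=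
  eval (fun i => (a i : ℂ)) q

/-- `s` points of multiplicity `m` suffice for polynomials with exponents in `Z`. -/
def Cov (δ m s : ℕ) (Z : Finset (Fin δ → ℕ)) : Prop :=
  ∃ P : Fin s → Fin δ → ℂ, ∀ c : (Fin δ → ℕ) → ℂ,
    (∀ (i : Fin s) (q : MvPolynomial (Fin δ) ℂ), q.totalDegree < m →
      ∑ a ∈ Z, c a * ev a q * ∏ j, P i j ^ a j = 0) → ∀ a ∈ Z, c a = 0

/-- The order in which a point sees the exponents: smaller first coordinate first, and so on, but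
larger last coordinate first. -/
def Bef : (δ : ℕ) → (Fin (δ + 1) → ℕ) → (Fin (δ + 1) → ℕ) → Prop
  | 0, a, b => b 0 < a 0
  | δ + 1, a, b => a 0 < b 0 ∨ (a 0 = b 0 ∧ Bef δ (Fin.tail a) (Fin.tail b))

open Classical in
/-- One step: what remains when one point of multiplicity `m` has been removed. -/
noncomputable def st (δ m : ℕ) (Z : Finset (Fin (δ + 1) → ℕ)) : Finset (Fin (δ + 1) → ℕ) :=
  Z.filter fun u => ∀ q : MvPolynomial (Fin (δ + 1)) ℂ, q.totalDegree < m →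
    (∀ a ∈ Z, Bef δ a u → ev a q = 0) → ev u q = 0

/-- The simplex. -/
def Sx (δ E : ℕ) : Finset (Fin δ → ℕ) :=
  (Fintype.piFinset fun _ : Fin δ => Finset.range E).filter fun a => ∑ i, a i < E

/-- Closed under moving units from the last coordinate to the others, or to nowhere. -/
def Clo (δ : ℕ) (Z : Finset (Fin (δ + 1) → ℕ)) : Prop :=
  ∀ a ∈ Z, ∀ b : Fin (δ + 1) → ℕ, (∀ j : Fin δ, a j.castSucc ≤ b j.castSucc) →
    b (Fin.last δ) ≤ a (Fin.last δ) → ∑ i, b i ≤ ∑ i, a i → b ∈ Z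

/-- The slice of height `z`. -/
def sl (δ z : ℕ) (Z : Finset (Fin (δ + 2) → ℕ)) : Finset (Fin (δ + 1) → ℕ) :=
  (Z.filter fun a => a 0 = z).image Fin.tail

/-- In the box of sides `A` (and `L` for the last coordinate) with corner `p`. -/
def Bx (δ : ℕ) (p : Fin (δ + 1) → ℕ) (A L : ℕ) (a : Fin (δ + 1) → ℕ) : Prop :=
  (∀ j, p j ≤ a j) ∧ (∀ j : Fin δ, a j.castSucc < p j.castSucc + A) ∧
    a (Fin.last δ) < p (Fin.last δ) + L

/-- The time in which a box is removed. -/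
def XX : ℕ → ℕ → ℕ → ℕ
  | 0, _, l => l
  | δ + 1, k, l => 2 * k * XX δ (2 * k) (2 * l)

/-- The height of the last part, in units of `m`. -/
def CC (δ : ℕ) : ℕ := (δ + 1) * (4 * XX δ (4 * (δ + 8)) 2) + 7

/-! ### algebra -/

/-- RED: reduction by one point. -/
def REDStmt : Prop :=
  ∀ (δ m s : ℕ) (Z : Finset (Fin (δ + 1) → ℕ)), Cov (δ + 1) m s (st δ m Z) →
    Cov (δ + 1) m (s + 1) Z

/-- VNT: the vanishing theorem. -/
def VNTStmt : Prop :=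
  ∀ p m s D : ℕ, Cov (p + 1) m s (Sx (p + 1) (D + 1)) → ∃ P : Fin s → Fin (p + 1) → ℂ,
    ∀ A : MvPolynomial (Fin (p + 1)) ℂ, A.totalDegree ≤ D → (∀ i, A ∈ mI (P i) ^ m) → A = 0

/-- UNI: a polynomial of degree less than `m` vanishing on a simplex of size `m` is zero. -/
def UNIStmt : Prop :=
  ∀ (δ m : ℕ) (p : Fin δ → ℕ) (q : MvPolynomial (Fin δ) ℂ), q.totalDegree < m →
    (∀ v ∈ Sx δ m, ev (p + v) q = 0) → q = 0

/-- DIF: differences lower the degree. -/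
def DIFStmt : Prop :=
  ∀ (δ m : ℕ) (v : Fin δ → ℂ) (q : MvPolynomial (Fin δ) ℂ), q.totalDegree < m + 1 →
    ∀ i : Fin δ, (X i * (q - aeval (fun j => X j + C (v j)) q)).totalDegree < m + 1

/-- CLO: closed sets remain closed. -/
def CLOStmt : Prop :=
  ∀ (δ m : ℕ) (Z : Finset (Fin (δ + 1) → ℕ)), Clo δ Z → Clo δ (st δ m Z)

/-- VOL: the number of exponents that are removed. -/
def VOLStmt : Prop :=
  ∀ (δ m : ℕ) (Z : Finset (Fin (δ + 1) → ℕ)),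
    (Z \ st δ m Z).card ≤ (Sx (δ + 1) m).card ∧
    ((∀ q : MvPolynomial (Fin (δ + 1)) ℂ, q.totalDegree < m → (∀ a ∈ Z, ev a q = 0) → q = 0) →
      (Z \ st δ m Z).card = (Sx (δ + 1) m).card)

/-! ### combinatorics -/

/-- MNO: monotonicity. -/
def MNOStmt : Prop :=
  ∀ (δ m m' : ℕ) (Z Z' : Finset (Fin (δ + 1) → ℕ)), Z ⊆ Z' → m' ≤ m → st δ m Z ⊆ st δ m' Z'

/-- LAY: the slices. -/
def LAYStmt : Prop :=
  ∀ (δ m c z : ℕ) (Z : Finset (Fin (δ + 2) → ℕ)), (∀ a ∈ Z, c ≤ a 0) →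
    sl δ z (st (δ + 1) m Z) ⊆ st δ (m - (z - c)) (sl δ z Z)

/-- KIL: a box is removed in time. -/
def KILStmt : Prop :=
  ∀ (δ m k l : ℕ) (p : Fin (δ + 1) → ℕ) (Z : Finset (Fin (δ + 1) → ℕ)),
    (∀ a ∈ Z, Bx δ p (k * m) (l * m) a) → (st δ m)^[XX δ k l] Z = ∅

/-- WIN: the lowest `m / 2 + 1` slices are removed in time. -/
def WINStmt : Prop :=
  ∀ (δ m k l c : ℕ) (p : Fin (δ + 1) → ℕ) (Z : Finset (Fin (δ + 2) → ℕ)),
    (∀ a ∈ Z, c ≤ a 0) →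
    (∀ a ∈ Z, a 0 < c + (m / 2 + 1) →
      Bx δ p (k * ((m + 1) / 2)) (l * ((m + 1) / 2)) (Fin.tail a)) →
    ∀ a ∈ (st (δ + 1) m)^[XX δ k l] Z, c + (m / 2 + 1) ≤ a 0

/-- FUL: a long row gives a simplex. -/
def FULStmt : Prop :=
  ∀ (δ m : ℕ) (Z : Finset (Fin (δ + 1) → ℕ)) (a : Fin (δ + 1) → ℕ), Clo δ Z → a ∈ Z →
    m ≤ a (Fin.last δ) + 1 → ∀ q : MvPolynomial (Fin (δ + 1)) ℂ, q.totalDegree < m →
      (∀ b ∈ Z, b 0 < a 0 + m → ev b q = 0) → q = 0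

/-- TCH: slices far above a long row are not touched. -/
def TCHStmt : Prop :=
  ∀ (δ m : ℕ) (Z : Finset (Fin (δ + 1) → ℕ)) (a u : Fin (δ + 1) → ℕ), 1 ≤ δ → Clo δ Z → a ∈ Z →
    m ≤ a (Fin.last δ) + 1 → u ∈ Z → a 0 + m ≤ u 0 → u ∈ st δ m Z

/-- BXC: the number of exponents with long rows between two heights. -/
def BXCStmt : Prop :=
  ∀ δ E m b f g : ℕ, 1 ≤ b → g + m + (δ + 1) * b ≤ E →
    (g - f) * b ^ (δ + 1) ≤ ((Sx (δ + 2) E).filter fun a =>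
      f ≤ a 0 ∧ a 0 < g ∧ m ≤ a (Fin.last (δ + 1)) + 1).card

/-- NQ: the numbers. -/
def NQStmt : Prop :=
  ∀ δ m F : ℕ, 1 ≤ m → CC δ * m ≤ F → ∃ b k : ℕ, 1 ≤ b ∧ F ≤ k * ((m + 1) / 2) ∧
    5 * (m / 2 + 1) + 2 * m + (δ + 1) * b ≤ F ∧
    4 * XX δ k 2 * m ^ (δ + 2) < 2 * (m / 2 + 1) * b ^ (δ + 1)

/-- AMO: the process. -/
def AMOStmt : Prop :=
  ∀ δ m E : ℕ, 1 ≤ m → m ≤ E → ∃ t : ℕ,
    t * (Sx (δ + 2) m).card ≤ (Sx (δ + 2) E).card ∧
    (st (δ + 1) m)^[t + XX (δ + 1) (CC δ) 1] (Sx (δ + 2) E) = ∅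

/-! ### the result -/

/-- CRD: the number of exponents. -/
def CRDStmt : Prop :=
  ∀ p D : ℕ, (Sx (p + 1) (D + 1)).card = (D + (p + 1)).choose (p + 1)

/-- CST: the generic `k`-rank of forms in `n = δ + 3` variables is at most the dimension count plus
a constant that depends only on `n`. -/
def CSTStmt : Prop :=
  ∀ δ k d s : ℕ, 1 ≤ k → 1 ≤ d →
    (k * d + (δ + 2)).choose (δ + 2) ≤ s * (d + (δ + 2)).choose (δ + 2) →
    GenLe (δ + 3) k d (s + XX (δ + 1) (CC δ) 1)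

end Pool.CST
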